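import Mathlib
import Pool.Agent.H737R3.Points

set_option autoImplicit false

namespace Pool.Agent.Results.MP_3eef69_ag.Chudnovsky

open MvPolynomial Filter Topology Pool.Agent.H737R3

/-- **Chudnovsky's conjecture.** Let `K` be a field, `n ≥ 1`, and let `Z` be a finite nonempty set
of points of the projective space of dimension `n` over `K`, with ideal `I = symPow Z 1` and
symbolic powers `I^(k) = symPow Z k`. The Waldschmidt constant `c = lim α(I^(k))/k` exists, and
`c ≥ (α(I) + n - 1)/n`. -/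
theorem result (K : Type*) [Field K] (n : ℕ) (hn : 1 ≤ n) (Z : Finset (PP K n))
    (hZ : Z.Nonempty) :
    ∃ c : ℝ, Tendsto (fun k : ℕ => (alpha (symPow Z k) : ℝ) / k) atTop (𝓝 c) ∧
      ((alpha (symPow Z 1) : ℝ) + n - 1) / n ≤ c := by
  have hI : ∀ r : ℕ, symPow Z r = wIdeal Z (fun p => r * (fun _ : PP K n => 1) p) := by
    intro r
    unfold symPow wIdeal
    simp only [mul_one]
  obtain ⟨q, hq⟩ := hZ
  obtain ⟨c, hc⟩ := exists_limit hn Z (fun _ => 1)
  simp only [hI]
  refine ⟨c, hc, ge_of_tendsto hc ?_⟩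
  filter_upwards [eventually_ge_atTop 1] with r hr
  have h := real_of_nat hn le_rfl hr (demailly_w hn Z (fun _ => 1) ⟨q, hq, le_rfl⟩ 1 r le_rfl)
  have e : ((1 : ℕ) : ℝ) + (n : ℝ) - 1 = n := by
    push_cast
    ring
  rw [e] at h
  exact h

end Pool.Agent.Results.MP_3eef69_ag.Chudnovsky
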